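import Pool.Agent.H66.L.S8.W917.SC.COMP
import Pool.Agent.H66.L.S8.W683.SC.Loc
import Pool.Agent.H66.L.S8.W923.SC.NBHD

/-!
# Convergent sequences in `Diff^r(N)`
-/

set_option autoImplicit false
set_option linter.unusedSectionVars false

open scoped Manifold ContDiff Topology
open Filter Set Metric

universe u

namespace Pool.Agent.TH382.QC

open Pool.Agent.H718R2.G Pool.Agent.W564.SC

section Gen

variable {E E' : Type} [NormedAddCommGroup E] [NormedSpace ℝ E] [NormedAddCommGroup E']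
  [NormedSpace ℝ E']

theorem jet_congr {k : ℕ} {a a' : ℕ → E → E'} {y y' : ℕ → E} {b b' : E → E'} {y₀ : E}
    (h : JetConv k a y b y₀) (hy : ∀ᶠ m in atTop, y m = y' m)
    (ha : ∀ᶠ m in atTop, a m =ᶠ[𝓝 (y m)] a' m) (hb : b =ᶠ[𝓝 y₀] b') : JetConv k a' y' b' y₀ where
  pt := h.pt.congr' hy
  smooth := by
    filter_upwards [h.smooth, hy, ha] with m h1 h2 h3
    rw [← h2]
    exact h1.congr_of_eventuallyEq h3.symm
  smooth₀ := h.smooth₀.congr_of_eventuallyEq hb.symm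
  conv j hj := by
    have h1 := h.conv j hj
    have h4 : iteratedFDeriv ℝ j b y₀ = iteratedFDeriv ℝ j b' y₀ :=
      (Filter.EventuallyEq.iteratedFDeriv ℝ hb j).eq_of_nhds
    rw [h4] at h1
    refine h1.congr' ?_
    filter_upwards [hy, ha] with m h2 h3
    rw [← h2]
    exact (Filter.EventuallyEq.iteratedFDeriv ℝ h3 j).eq_of_nhds

end Gen

variable {n : ℕ} {N : Type u} [TopologicalSpace N] [ChartedSpace (V n) N]
  [IsManifold (𝓡 n) ∞ N] {r : ℕ∞}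

/-- convergence in charts -/
structure CvAt (k : ℕ) (G : ℕ → DiffM n N r) (G₀ : DiffM n N r)
    (φ ψ : OpenPartialHomeomorph N (V n)) (x : ℕ → N) (x₀ : N) : Prop where
  pt : Tendsto (fun m => G m (x m)) atTop (𝓝 (G₀ x₀))
  jet : JetConv k (fun m => ψ ∘ G m ∘ φ.symm) (fun m => φ (x m)) (ψ ∘ G₀ ∘ φ.symm) (φ x₀)

/-- convergence in `Diff^r(N)` -/
def Cv (G : ℕ → DiffM n N r) (G₀ : DiffM n N r) : Prop :=
  ∀ k : ℕ, (k : ℕ∞) ≤ r → ∀ φ ψ : OpenPartialHomeomorph N (V n),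
    φ ∈ IsManifold.maximalAtlas (𝓡 n) ∞ N → ψ ∈ IsManifold.maximalAtlas (𝓡 n) ∞ N →
    ∀ (x : ℕ → N) (x₀ : N), Tendsto x atTop (𝓝 x₀) → x₀ ∈ φ.source → G₀ x₀ ∈ ψ.source →
    CvAt k G G₀ φ ψ x x₀

theorem Cv.subseq {G : ℕ → DiffM n N r} {G₀ : DiffM n N r} (h : Cv G G₀) {g : ℕ → ℕ}
    (hg : StrictMono g) : Cv (fun m => G (g m)) G₀ := by
  intro k hk φ ψ hφ hψ x x₀ hx hx₀ hw
  -- extend the sequence
  classical
  obtain ⟨x', hx'1, hx'2⟩ : ∃ x' : ℕ → N, Tendsto x' atTop (𝓝 x₀) ∧ ∀ m, x' (g m) = x m := by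
    refine ⟨fun l => if hl : ∃ m, g m = l then x hl.choose else x₀, ?_, ?_⟩
    · rw [tendsto_atTop_nhds] at hx ⊢
      intro U hU hUo
      obtain ⟨M, hM⟩ := hx U hU hUo
      refine ⟨g M, fun l hl => ?_⟩
      by_cases h1 : ∃ m, g m = l
      · rw [dif_pos h1]
        apply hM
        have := h1.choose_spec
        rw [← this] at hl
        exact hg.le_iff_le.1 hl
      · rw [dif_neg h1]
        exact hU
    · intro m
      have h1 : ∃ m', g m' = g m := ⟨m, rfl⟩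
      show (if hl : ∃ m', g m' = g m then x hl.choose else x₀) = x m
      rw [dif_pos h1]
      congr 1
      exact hg.injective h1.choose_spec
  obtain ⟨h1, h2⟩ := h k hk φ ψ hφ hψ x' x₀ hx'1 hx₀ hw
  have ht := hg.tendsto_atTop
  refine ⟨?_, ?_, ?_, h2.smooth₀, ?_⟩
  · have := h1.comp ht
    refine this.congr fun m => ?_
    simp only [Function.comp, hx'2]
  · have := h2.pt.comp ht
    refine this.congr fun m => ?_
    simp only [Function.comp, hx'2]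
  · have := ht.eventually h2.smooth
    refine this.mono fun m hm => ?_
    rwa [hx'2] at hm
  · intro j hj
    have := (h2.conv j hj).comp ht
    refine this.congr fun m => ?_
    simp only [Function.comp, hx'2]

theorem rep_smooth {n : ℕ} {N : Type u} [TopologicalSpace N] [ChartedSpace (V n) N]
    [IsManifold (𝓡 n) ∞ N] {r : ℕ∞} (G : DiffM n N r) {φ ψ : OpenPartialHomeomorph N (V n)}
    (hφ : φ ∈ IsManifold.maximalAtlas (𝓡 n) ∞ N) (hψ : ψ ∈ IsManifold.maximalAtlas (𝓡 n) ∞ N)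
    {x : N} (hx : x ∈ φ.source) (hw : G x ∈ ψ.source) :
    ContDiffAt ℝ r (ψ ∘ G ∘ φ.symm) (φ x) := by
  have h1 : ContMDiffAt (𝓡 n) (𝓡 n) r φ.symm (φ x) :=
    (contMDiffAt_symm_of_mem_maximalAtlas hφ (φ.map_source hx)).of_le (by exact_mod_cast le_top)
  have h2 : ContMDiffAt (𝓡 n) (𝓡 n) r ψ (G x) :=
    (contMDiffAt_of_mem_maximalAtlas hψ hw).of_le (by exact_mod_cast le_top)
  have h3 : ContMDiffAt (𝓡 n) (𝓡 n) r G x := G.contMDiff.contMDiffAt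
  rw [← contMDiffAt_iff_contDiffAt]
  have h4 : ContMDiffAt (𝓡 n) (𝓡 n) r (fun v => G (φ.symm v)) (φ x) := by
    refine ContMDiffAt.comp (φ x) (g := G) (f := φ.symm) ?_ h1
    rw [φ.left_inv hx]
    exact h3
  refine ContMDiffAt.comp (φ x) (g := ψ) (f := fun v => G (φ.symm v)) ?_ h4
  simp only [φ.left_inv hx]
  exact h2

theorem trans_smooth {φ ψ : OpenPartialHomeomorph N (V n)}
    (hφ : φ ∈ IsManifold.maximalAtlas (𝓡 n) ∞ N) (hψ : ψ ∈ IsManifold.maximalAtlas (𝓡 n) ∞ N)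
    {x : N} (hx : x ∈ φ.source) (hw : x ∈ ψ.source) :
    ContDiffAt ℝ ∞ (ψ ∘ φ.symm) (φ x) := by
  have h1 : ContMDiffAt (𝓡 n) (𝓡 n) ∞ φ.symm (φ x) :=
    contMDiffAt_symm_of_mem_maximalAtlas hφ (φ.map_source hx)
  have h2 : ContMDiffAt (𝓡 n) (𝓡 n) ∞ ψ x := contMDiffAt_of_mem_maximalAtlas hψ hw
  rw [← contMDiffAt_iff_contDiffAt]
  refine ContMDiffAt.comp (φ x) (g := ψ) (f := φ.symm) ?_ h1
  rw [φ.left_inv hx]
  exact h2

/-- composition -/
theorem Cv.trans (hcomp : S_COMP) {G K : ℕ → DiffM n N r} {G₀ K₀ : DiffM n N r} (hK : Cv K K₀)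
    (hG : Cv G G₀) : Cv (fun m => (K m).trans (G m)) (K₀.trans G₀) := by
  intro k hk φ ψ hφ hψ x x₀ hx hx₀ hw
  set χ := chartAt (V n) (K₀ x₀) with hχ
  have hχm : χ ∈ IsManifold.maximalAtlas (𝓡 n) ∞ N := IsManifold.chart_mem_maximalAtlas _
  have hχs : K₀ x₀ ∈ χ.source := mem_chart_source _ _
  obtain ⟨p1, j1⟩ := hK k hk φ χ hφ hχm x x₀ hx hx₀ hχs
  obtain ⟨p2, j2⟩ := hG k hk χ ψ hχm hψ (fun m => K m (x m)) (K₀ x₀) p1 hχs hw
  refine ⟨p2, ?_⟩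
  have hxφ : ∀ᶠ m in atTop, x m ∈ φ.source := hx.eventually (φ.open_source.mem_nhds hx₀)
  have hKχ : ∀ᶠ m in atTop, K m (x m) ∈ χ.source := p1.eventually (χ.open_source.mem_nhds hχs)
  have e0 : (χ ∘ K₀ ∘ φ.symm) (φ x₀) = χ (K₀ x₀) := by
    simp only [Function.comp, φ.left_inv hx₀]
  have j2' : JetConv k (fun m => ψ ∘ G m ∘ χ.symm) (fun m => (χ ∘ K m ∘ φ.symm) (φ (x m)))
      (ψ ∘ G₀ ∘ χ.symm) ((χ ∘ K₀ ∘ φ.symm) (φ x₀)) := by
    rw [e0]
    refine jet_congr j2 ?_ (Eventually.of_forall fun m => EventuallyEq.rfl) EventuallyEq.rfl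
    filter_upwards [hxφ] with m hm
    simp only [Function.comp, φ.left_inv hm]
  have j3 := hcomp (V n) (V n) (V n) k _ _ _ _ _ _ j1 j2'
  have key : ∀ (K' G' : DiffM n N r) (x' : N), x' ∈ φ.source → K' x' ∈ χ.source →
      (ψ ∘ G' ∘ χ.symm) ∘ (χ ∘ K' ∘ φ.symm) =ᶠ[𝓝 (φ x')] ψ ∘ (K'.trans G') ∘ φ.symm := by
    intro K' G' x' hx' hKx'
    have hc : ContinuousAt (fun v => K' (φ.symm v)) (φ x') :=
      K'.continuous.continuousAt.comp (φ.continuousAt_symm (φ.map_source hx'))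
    have hc' : ∀ᶠ v in 𝓝 (φ x'), K' (φ.symm v) ∈ χ.source := by
      refine hc.eventually (χ.open_source.mem_nhds ?_)
      simp only [φ.left_inv hx']
      exact hKx'
    filter_upwards [hc'] with v hv
    simp only [Function.comp, χ.left_inv hv]
    rfl
  refine jet_congr j3 (Eventually.of_forall fun m => rfl) ?_ (key K₀ G₀ x₀ hx₀ hχs)
  filter_upwards [hxφ, hKχ] with m h1 h2
  exact key (K m) (G m) (x m) h1 h2

theorem Cv.const (G : DiffM n N r) : Cv (fun _ => G) G := by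
  intro k hk φ ψ hφ hψ x x₀ hx hx₀ hw
  exact ⟨(G.continuous.tendsto _).comp hx,
    Pool.Agent.W683.SC.jet_const ((φ.continuousAt hx₀).tendsto.comp hx)
      ((rep_smooth G hφ hψ hx₀ hw).of_le (by exact_mod_cast hk))⟩

theorem Cv.fam (hcomp : S_COMP) {P : Type} [NormedAddCommGroup P] [NormedSpace ℝ P]
    {H : P → DiffM n N r} (hH : IsFam n N r H) {s : ℕ → P} (hs : Tendsto s atTop (𝓝 0)) :
    Cv (fun m => H (s m)) (H 0) := by
  intro k hk φ ψ hφ hψ x x₀ hx hx₀ hw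
  exact ⟨Pool.Agent.W683.SC.fam_tendsto hH hx hs,
    Pool.Agent.W683.SC.jet_fam hcomp hH hφ hψ hx hx₀ hw hs hk⟩

/-- convergence implies convergence in the strong topology: basic neighbourhoods -/
theorem Cv.basic [T2Space N] [CompactSpace N] {G : ℕ → DiffM n N r} {G₀ : DiffM n N r}
    (h : Cv G G₀) (D : StrongData n N) (k : ℕ) (f : DiffM n N r) (hk : (k : ℕ∞) ≤ r)
    (hf : ∀ i, ∀ x ∈ D.K i, f x ∈ (D.ψ i).source) (h0 : G₀ ∈ strongNbhd D k f) :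
    ∀ᶠ m in atTop, G m ∈ strongNbhd D k f := by
  by_contra hcon
  obtain ⟨g₀, hg₀, hno⟩ := extraction_of_frequently_atTop (not_eventually.1 hcon)
  have hno' : ∀ m, ∃ i, ∃ x, x ∈ D.K i ∧ ¬ (G (g₀ m) x ∈ (D.ψ i).source ∧ ∀ j : ℕ, j ≤ k →
      ‖iteratedFDeriv ℝ j (D.ψ i ∘ G (g₀ m) ∘ (D.φ i).symm) (D.φ i x)
        - iteratedFDeriv ℝ j (D.ψ i ∘ f ∘ (D.φ i).symm) (D.φ i x)‖ < D.ε i) := by
    intro m
    by_contra hc
    push Not at hc
    apply hno m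
    intro i x hx
    exact hc i x hx
  choose i x hx hbad using hno'
  have hfin : {i | ((D.φ i).source).Nonempty}.Finite := D.lf.finite_nonempty_of_compact
  have hne : ∀ m, ((D.φ (i m)).source).Nonempty := fun m => ⟨x m, D.sub _ (hx m)⟩
  have := hfin.to_subtype
  obtain ⟨i₀, hi₀⟩ := Finite.exists_infinite_fiber
    (fun m => (⟨i m, hne m⟩ : {i | ((D.φ i).source).Nonempty}))
  have hinf : {m | i m = i₀.1}.Infinite := by
    rw [Set.infinite_coe_iff] at hi₀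
    refine hi₀.mono ?_
    intro m hm
    exact congrArg Subtype.val hm
  obtain ⟨g₁, hg₁, hi₁⟩ := extraction_of_frequently_atTop
    (Nat.frequently_atTop_iff_infinite.mpr hinf)
  have : SecondCountableTopology N := ChartedSpace.secondCountable_of_sigmaCompact (V n) N
  obtain ⟨x₀, g₂, hg₂, hx₀⟩ := CompactSpace.tendsto_subseq (x ∘ g₁)
  set g : ℕ → ℕ := g₁ ∘ g₂ with hg
  have hgm : StrictMono g := hg₁.comp hg₂
  have hig : ∀ m, i (g m) = i₀.1 := fun m => hi₁ _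
  have hxg : Tendsto (fun m => x (g m)) atTop (𝓝 x₀) := hx₀
  have hxK : ∀ m, x (g m) ∈ D.K i₀.1 := fun m => by
    have := hx (g m)
    rwa [hig m] at this
  have hx₀K : x₀ ∈ D.K i₀.1 :=
    (D.compact i₀.1).isClosed.mem_of_tendsto hxg (Eventually.of_forall hxK)
  obtain ⟨hp, hj⟩ := h.subseq (hg₀.comp hgm) k hk (D.φ i₀.1) (D.ψ i₀.1) (D.φ_mem _) (D.ψ_mem _)
    (fun m => x (g m)) x₀ hxg (D.sub _ hx₀K) (h0 i₀.1 x₀ hx₀K).1
  obtain ⟨-, hjf⟩ := Cv.const f k hk (D.φ i₀.1) (D.ψ i₀.1) (D.φ_mem _) (D.ψ_mem _)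
    (fun m => x (g m)) x₀ hxg (D.sub _ hx₀K) (hf i₀.1 x₀ hx₀K)
  have hall : ∀ᶠ m in atTop, ∀ j ∈ Finset.range (k + 1),
      ‖iteratedFDeriv ℝ j (D.ψ i₀.1 ∘ G (g₀ (g m)) ∘ (D.φ i₀.1).symm) (D.φ i₀.1 (x (g m)))
        - iteratedFDeriv ℝ j (D.ψ i₀.1 ∘ f ∘ (D.φ i₀.1).symm) (D.φ i₀.1 (x (g m)))‖ <
          D.ε i₀.1 := by
    rw [Finset.eventually_all]
    intro j hjj
    have hjk : j ≤ k := Nat.lt_succ_iff.mp (Finset.mem_range.mp hjj)
    have h1 := ((hj.conv j hjk).sub (hjf.conv j hjk)).norm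
    exact h1.eventually (gt_mem_nhds ((h0 i₀.1 x₀ hx₀K).2 j hjk))
  have hsrc : ∀ᶠ m in atTop, G (g₀ (g m)) (x (g m)) ∈ (D.ψ i₀.1).source :=
    hp.eventually ((D.ψ i₀.1).open_source.mem_nhds (h0 i₀.1 x₀ hx₀K).1)
  obtain ⟨m, hm1, hm2⟩ := (hsrc.and hall).exists
  have hb := hbad (g m)
  rw [hig m] at hb
  exact hb ⟨hm1, fun j hj => hm2 j (Finset.mem_range.mpr (Nat.lt_succ_iff.mpr hj))⟩

/-- convergence implies convergence in the strong topology -/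
theorem Cv.mem [T2Space N] [CompactSpace N] {G : ℕ → DiffM n N r} {G₀ : DiffM n N r}
    (h : Cv G G₀) {U : Set (DiffM n N r)} (hU : IsOpen[strongTop n N r] U) (h0 : G₀ ∈ U) :
    ∀ᶠ m in atTop, G m ∈ U := by
  letI : TopologicalSpace (DiffM n N r) := strongTop n N r
  have hbas := TopologicalSpace.isTopologicalBasis_of_subbasis (t := strongTop n N r) rfl
  obtain ⟨B, ⟨F, ⟨hF1, hF2⟩, rfl⟩, hB1, hB2⟩ := hbas.exists_subset_of_mem_open h0 hU
  have key : ∀ᶠ m in atTop, ∀ S ∈ F, G m ∈ S := by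
    rw [Filter.eventually_all_finite hF1]
    intro S hS
    obtain ⟨D, k', f, hk'r, hf, rfl⟩ := hF2 hS
    exact h.basic D k' f hk'r hf (hB1 _ hS)
  exact key.mono fun m hm => hB2 hm

end Pool.Agent.TH382.QC
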